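import Pool.Agent.H76.QW.Loynes

/-! The stationary mean waiting time of a GI/GI/2 queue can exceed the stationary mean waiting
time of the single-server queue with the same interarrival times and halved service times. -/

set_option autoImplicit false

namespace Pool.Agent.Results.MP_68c8f2_pr.StationaryWaits

open MeasureTheory ProbabilityTheory Filter Topology

/-- The vector `x` rearranged into increasing order. -/
noncomputable def rearr {k : ℕ} (x : Fin k → ℝ) : Fin k → ℝ := fun i => x (Tuple.sort x i)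

/-- One step of the Kiefer-Wolfowitz recursion for the increasing workload vector `w` (least
entry at index `0`): the service time `s` is added to the least entry, the vector is rearranged
into increasing order, the interarrival time `t` is subtracted from every entry and positive
parts are taken. -/
noncomputable def step {k : ℕ} [NeZero k] (w : Fin k → ℝ) (s t : ℝ) : Fin k → ℝ :=
  fun i => max (rearr (Function.update w 0 (w 0 + s)) i - t) 0

/-- The workload vector found by customer `n` in the `k`-server queue with interarrival times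
`T` and service times `S`, started empty. Customer `n` waits exactly its entry at index `0`. -/
noncomputable def workload {Ω : Type} (k : ℕ) [NeZero k] (T S : ℕ → Ω → ℝ) :
    ℕ → Ω → Fin k → ℝ
  | 0, _ => 0
  | n+1, ω => step (workload k T S n ω) (S n ω) (T n ω)

/-- `T` and `S` are the interarrival and service times of a GI/GI/`k` queue with relative
traffic intensity below one: all of them are independent nonnegative random variables on a
probability space, the interarrival times have one common law with mean in `(0, ∞)`, the service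
times have one common law with mean in `(0, ∞)`, and `ES / (k ET) < 1`. -/
structure IsQueue {Ω : Type} [MeasurableSpace Ω] (k : ℕ) (μ : Measure Ω)
    (T S : ℕ → Ω → ℝ) : Prop where
  prob : IsProbabilityMeasure μ
  measurable_T : ∀ n, Measurable (T n)
  measurable_S : ∀ n, Measurable (S n)
  indep : iIndepFun (fun i : ℕ ⊕ ℕ => Sum.elim T S i) μ
  ident_T : ∀ n, IdentDistrib (T n) (T 0) μ μ
  ident_S : ∀ n, IdentDistrib (S n) (S 0) μ μ
  nonneg_T : ∀ n ω, 0 ≤ T n ω
  nonneg_S : ∀ n ω, 0 ≤ S n ω
  integrable_T : Integrable (T 0) μ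
  integrable_S : Integrable (S 0) μ
  mean_T : 0 < ∫ ω, T 0 ω ∂μ
  mean_S : 0 < ∫ ω, S 0 ω ∂μ
  stable : (∫ ω, S 0 ω ∂μ) / ((k : ℝ) * ∫ ω, T 0 ω ∂μ) < 1

/-- `π` is the limit law (the stationary law) of the workload vectors: they are random vectors
and converge in distribution to the probability law `π`. -/
structure IsStationaryLaw {Ω : Type} [MeasurableSpace Ω] (k : ℕ) [NeZero k] (μ : Measure Ω)
    (T S : ℕ → Ω → ℝ) (π : Measure (Fin k → ℝ)) : Prop where
  prob : IsProbabilityMeasure π
  measurable_workload : ∀ n, Measurable (workload k T S n)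
  tendsto : ∀ f : BoundedContinuousFunction (Fin k → ℝ) ℝ,
    Tendsto (fun n => ∫ ω, f (workload k T S n ω) ∂μ) atTop (𝓝 (∫ x, f x ∂π))

/-- The mean of the waiting time (the entry at index `0`) under a law of the workload vector. -/
noncomputable def meanWait {k : ℕ} [NeZero k] (π : Measure (Fin k → ℝ)) : ENNReal :=
  ∫⁻ x, ENNReal.ofReal (x 0) ∂π

section Proof

open Pool.Agent.S19386 (Om P coin)
open Pool.Agent.H76.QW (F)

theorem rearr_one (x : Fin 1 → ℝ) (i : Fin 1) : rearr x i = x i := by
  unfold rearr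
  rw [Subsingleton.elim (Tuple.sort x i) i]

theorem perm_two (σ : Equiv.Perm (Fin 2)) : (σ 0 = 0 ∧ σ 1 = 1) ∨ (σ 0 = 1 ∧ σ 1 = 0) := by
  revert σ
  decide

theorem rearr_two (x : Fin 2 → ℝ) :
    rearr x 0 = min (x 0) (x 1) ∧ rearr x 1 = max (x 0) (x 1) := by
  have hm : rearr x 0 ≤ rearr x 1 := Tuple.monotone_sort x (Fin.zero_le 1)
  have e0 : rearr x 0 = x (Tuple.sort x 0) := rfl
  have e1 : rearr x 1 = x (Tuple.sort x 1) := rfl
  rw [e0, e1] at hm ⊢
  rcases perm_two (Tuple.sort x) with ⟨h0, h1⟩ | ⟨h0, h1⟩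
  · rw [h0, h1] at hm ⊢
    exact ⟨(min_eq_left hm).symm, (max_eq_right hm).symm⟩
  · rw [h0, h1] at hm ⊢
    exact ⟨(min_eq_right hm).symm, (max_eq_left hm).symm⟩

theorem step_one (w : Fin 1 → ℝ) (s t : ℝ) (i : Fin 1) : step w s t i = max (w 0 + s - t) 0 := by
  unfold step
  rw [rearr_one, Subsingleton.elim i 0, Function.update_self]

theorem step_two_zero (w : Fin 2 → ℝ) (s t : ℝ) :
    step w s t 0 = max (min (w 0 + s) (w 1) - t) 0 := by
  unfold step
  rw [(rearr_two _).1, Function.update_self, Function.update_of_ne (by decide)]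

theorem step_two_one (w : Fin 2 → ℝ) (s t : ℝ) :
    step w s t 1 = max (max (w 0 + s) (w 1) - t) 0 := by
  unfold step
  rw [(rearr_two _).2, Function.update_self, Function.update_of_ne (by decide)]

/-- The service time of the two-server queue as a function of the coin. -/
noncomputable def sv (b : Bool) : ℝ := if b then 5 else 3

/-- The step map of the two-server queue. -/
noncomputable def G2 (b : Bool) (w : Fin 2 → ℝ) : Fin 2 → ℝ := step w (sv b) 2

/-- The step map of the single-server queue. -/
noncomputable def G1 (b : Bool) (w : Fin 1 → ℝ) : Fin 1 → ℝ := step w (sv b / 2) 2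

theorem sv_ge (b : Bool) : 3 ≤ sv b := by unfold sv; split_ifs <;> norm_num
theorem sv_le (b : Bool) : sv b ≤ 5 := by unfold sv; split_ifs <;> norm_num

theorem G2_mono (b : Bool) : Monotone (G2 b) := by
  intro v w h i
  have h0 := h 0
  have h1 := h 1
  fin_cases i
  · show step v (sv b) 2 0 ≤ step w (sv b) 2 0
    rw [step_two_zero, step_two_zero]
    gcongr
  · show step v (sv b) 2 1 ≤ step w (sv b) 2 1
    rw [step_two_one, step_two_one]
    gcongr

theorem G1_mono (b : Bool) : Monotone (G1 b) := by
  intro v w h i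
  have h0 := h 0
  show step v (sv b / 2) 2 i ≤ step w (sv b / 2) 2 i
  rw [step_one, step_one]
  gcongr

theorem G2_nonneg (b : Bool) (w : Fin 2 → ℝ) : 0 ≤ G2 b w := fun _ => le_max_right _ _
theorem G1_nonneg (b : Bool) (w : Fin 1 → ℝ) : 0 ≤ G1 b w := fun _ => le_max_right _ _

theorem G2_measurable (b : Bool) : Measurable (G2 b) := by
  rw [measurable_pi_iff]
  intro i
  have h0 : Measurable (fun w : Fin 2 → ℝ => w 0) := measurable_pi_apply 0
  have h1 : Measurable (fun w : Fin 2 → ℝ => w 1) := measurable_pi_apply 1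
  fin_cases i
  · have h : (fun w : Fin 2 → ℝ => G2 b w 0) =
        fun w => max (min (w 0 + sv b) (w 1) - 2) 0 := by
      funext w
      exact step_two_zero w (sv b) 2
    show Measurable (fun w : Fin 2 → ℝ => G2 b w 0)
    rw [h]
    exact ((((h0.add_const _).min h1).sub_const 2)).max measurable_const
  · have h : (fun w : Fin 2 → ℝ => G2 b w 1) =
        fun w => max (max (w 0 + sv b) (w 1) - 2) 0 := by
      funext w
      exact step_two_one w (sv b) 2
    show Measurable (fun w : Fin 2 → ℝ => G2 b w 1)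
    rw [h]
    exact ((((h0.add_const _).max h1).sub_const 2)).max measurable_const

theorem G1_measurable (b : Bool) : Measurable (G1 b) := by
  rw [measurable_pi_iff]
  intro i
  have h0 : Measurable (fun w : Fin 1 → ℝ => w 0) := measurable_pi_apply 0
  have h : (fun w : Fin 1 → ℝ => G1 b w i) = fun w => max (w 0 + sv b / 2 - 2) 0 := by
    funext w
    exact step_one w (sv b / 2) 2 i
  rw [h]
  exact ((h0.add_const _).sub_const 2).max measurable_const

/-- The interarrival times of the example. -/
abbrev T : ℕ → Om → ℝ := Pool.Agent.S19386.T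
/-- The service times of the example. -/
abbrev S : ℕ → Om → ℝ := Pool.Agent.S19386.S

theorem workload_two (n : ℕ) (ω : Om) : workload 2 T S n ω = F G2 n ω := by
  induction n with
  | zero => rfl
  | succ n ih =>
    show step (workload 2 T S n ω) (S n ω) (T n ω) = G2 (ω (Sum.inr n)) (F G2 n ω)
    rw [ih]
    rfl

theorem workload_one (n : ℕ) (ω : Om) :
    workload 1 T (fun n ω => S n ω / 2) n ω = F G1 n ω := by
  induction n with
  | zero => rfl
  | succ n ih =>
    show step (workload 1 T (fun n ω => S n ω / 2) n ω) (S n ω / 2) (T n ω)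
      = G1 (ω (Sum.inr n)) (F G1 n ω)
    rw [ih]
    rfl

theorem F1_eq (n : ℕ) (ω : Om) (i : Fin 1) : F G1 n ω i = Pool.Agent.S19386.U n ω := by
  induction n generalizing i with
  | zero => simp [F, Pool.Agent.S19386.U, Pool.Agent.S19386.N]
  | succ n ih =>
    show step (F G1 n ω) (sv (ω (Sum.inr n)) / 2) 2 i = _
    rw [step_one, ih, Pool.Agent.S19386.U_succ, max_comm]
    simp only [Pool.Agent.S19386.T, Pool.Agent.S19386.S, sv, Nat.cast_ofNat]

theorem U_nonneg (n : ℕ) (ω : Om) : 0 ≤ Pool.Agent.S19386.U n ω := by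
  unfold Pool.Agent.S19386.U
  positivity

theorem F2_bound (n : ℕ) (ω : Om) :
    0 ≤ F G2 n ω 0 ∧ F G2 n ω 0 ≤ F G2 n ω 1 ∧ F G2 n ω 1 ≤ F G2 n ω 0 + 5 ∧
      F G2 n ω 0 + F G2 n ω 1 ≤ 2 * Pool.Agent.S19386.U n ω + 5 := by
  induction n with
  | zero =>
    have hU := U_nonneg 0 ω
    simp only [F, Pi.zero_apply]
    refine ⟨le_rfl, le_rfl, by norm_num, by linarith⟩
  | succ n ih =>
    obtain ⟨h0, h1, h2, h3⟩ := ih
    have hs := sv_ge (ω (Sum.inr n))
    have hs' := sv_le (ω (Sum.inr n))
    have hU := U_nonneg (n+1) ω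
    have hU' : Pool.Agent.S19386.U n ω + sv (ω (Sum.inr n)) / 2 - 2
        ≤ Pool.Agent.S19386.U (n+1) ω := by
      rw [Pool.Agent.S19386.U_succ]
      simp only [Pool.Agent.S19386.T, Pool.Agent.S19386.S, sv, Nat.cast_ofNat]
      exact le_max_right _ _
    have e0 : F G2 (n+1) ω 0 = max (min (F G2 n ω 0 + sv (ω (Sum.inr n))) (F G2 n ω 1) - 2) 0 :=
      step_two_zero _ _ _
    have e1 : F G2 (n+1) ω 1 = max (max (F G2 n ω 0 + sv (ω (Sum.inr n))) (F G2 n ω 1) - 2) 0 :=
      step_two_one _ _ _
    rw [e0, e1]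
    generalize F G2 n ω 0 = a at *
    generalize F G2 n ω 1 = b at *
    generalize sv (ω (Sum.inr n)) = s at *
    generalize Pool.Agent.S19386.U (n+1) ω = u' at *
    generalize Pool.Agent.S19386.U n ω = u at *
    clear e0 e1
    rcases le_total (a + s) b with hab | hab
    · rw [min_eq_left hab, max_eq_right hab]
      rcases le_total (a + s - 2) 0 with hc | hc
      · linarith
      · rw [max_eq_left hc, max_eq_left (by linarith)]
        refine ⟨hc, by linarith, by linarith, by linarith⟩
    · rw [min_eq_right hab, max_eq_left hab]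
      rw [max_eq_left (show (0:ℝ) ≤ a + s - 2 by linarith)]
      rcases le_total (b - 2) 0 with hc | hc
      · rw [max_eq_right hc]
        refine ⟨le_rfl, by linarith, by linarith, by linarith⟩
      · rw [max_eq_left hc]
        refine ⟨hc, by linarith, by linarith, by linarith⟩

theorem F2_lintegral (n : ℕ) (i : Fin 2) :
    ∫⁻ ω, ENNReal.ofReal (F G2 n ω i) ∂P ≤ 2 * ENNReal.ofReal (1/128) + 5 := by
  have hU : Measurable (fun ω : Om => ENNReal.ofReal (Pool.Agent.S19386.U n ω)) := by
    refine ENNReal.measurable_ofReal.comp ?_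
    have h : Measurable (fun m : ℕ => (m : ℝ) / 2) := measurable_from_top
    exact h.comp (Pool.Agent.S19386.measurable_N n)
  calc ∫⁻ ω, ENNReal.ofReal (F G2 n ω i) ∂P
      ≤ ∫⁻ ω, (2 * ENNReal.ofReal (Pool.Agent.S19386.U n ω) + 5) ∂P := by
        refine lintegral_mono (fun ω => ?_)
        obtain ⟨h0, h1, h2, h3⟩ := F2_bound n ω
        have hU0 := U_nonneg n ω
        have hi : F G2 n ω i ≤ 2 * Pool.Agent.S19386.U n ω + 5 := by
          fin_cases i
          · show F G2 n ω 0 ≤ _
            linarith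
          · show F G2 n ω 1 ≤ _
            linarith
        calc ENNReal.ofReal (F G2 n ω i)
            ≤ ENNReal.ofReal (2 * Pool.Agent.S19386.U n ω + 5) := ENNReal.ofReal_le_ofReal hi
          _ = 2 * ENNReal.ofReal (Pool.Agent.S19386.U n ω) + 5 := by
              rw [ENNReal.ofReal_add (by positivity) (by norm_num),
                ENNReal.ofReal_mul (by norm_num)]
              norm_num
    _ = 2 * ∫⁻ ω, ENNReal.ofReal (Pool.Agent.S19386.U n ω) ∂P + 5 := by
        rw [lintegral_add_right _ measurable_const, lintegral_const_mul _ hU]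
        simp
    _ ≤ 2 * ENNReal.ofReal (1/128) + 5 := by
        gcongr
        exact Pool.Agent.S19386.lintegral_U_le n

theorem F2_two_ge (ω : Om) (h : ω (Sum.inr 0) = true) : 1 ≤ F G2 2 ω 0 := by
  have hs0 : sv (ω (Sum.inr 0)) = 5 := by rw [h]; simp [sv]
  have a0 : F G2 1 ω 0 = 0 := by
    have e : F G2 1 ω 0 = max (min ((0:ℝ) + sv (ω (Sum.inr 0))) 0 - 2) 0 :=
      step_two_zero _ _ _
    rw [e, hs0]
    norm_num
  have a1 : F G2 1 ω 1 = 3 := by
    have e : F G2 1 ω 1 = max (max ((0:ℝ) + sv (ω (Sum.inr 0))) 0 - 2) 0 :=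
      step_two_one _ _ _
    rw [e, hs0]
    norm_num
  have e : F G2 2 ω 0 = max (min (F G2 1 ω 0 + sv (ω (Sum.inr 1))) (F G2 1 ω 1) - 2) 0 :=
    step_two_zero _ _ _
  rw [e, a0, a1]
  have hs := sv_ge (ω (Sum.inr 1))
  rw [min_eq_right (by linarith)]
  norm_num

theorem F2_ge : ENNReal.ofReal (1/100) ≤ ∫⁻ ω, ENNReal.ofReal (F G2 2 ω 0) ∂P := by
  have hm : MeasurableSet {ω : Om | ω (Sum.inr 0) = true} :=
    Pool.Agent.S19386.measurable_coord (Sum.inr 0) (measurableSet_singleton true)
  calc ENNReal.ofReal (1/100) = P {ω | ω (Sum.inr 0) = true} := Pool.Agent.S19386.P_true.symm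
    _ = ∫⁻ ω, Set.indicator {ω | ω (Sum.inr 0) = true} 1 ω ∂P := by
        rw [lintegral_indicator_one hm]
    _ ≤ ∫⁻ ω, ENNReal.ofReal (F G2 2 ω 0) ∂P := by
        refine lintegral_mono (fun ω => ?_)
        by_cases h : ω (Sum.inr 0) = true
        · have h1 := F2_two_ge ω h
          have h2 : ω ∈ {ω : Om | ω (Sum.inr 0) = true} := h
          rw [Set.indicator_of_mem h2, Pi.one_apply]
          calc (1 : ENNReal) = ENNReal.ofReal 1 := by simp
            _ ≤ _ := ENNReal.ofReal_le_ofReal h1
        · have h2 : ω ∉ {ω : Om | ω (Sum.inr 0) = true} := h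
          rw [Set.indicator_of_notMem h2]
          exact bot_le

theorem queue_two : IsQueue 2 P T S where
  prob := inferInstance
  measurable_T := fun _ => measurable_const
  measurable_S := Pool.Agent.S19386.measurable_S
  indep := Pool.Agent.S19386.indep_TS
  ident_T := fun n => IdentDistrib.refl measurable_const.aemeasurable
  ident_S := Pool.Agent.S19386.S_ident
  nonneg_T := fun _ _ => by simp [T, Pool.Agent.S19386.T]
  nonneg_S := fun n ω => by
    show 0 ≤ Pool.Agent.S19386.S n ω
    unfold Pool.Agent.S19386.S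
    split_ifs <;> norm_num
  integrable_T := integrable_const (2:ℝ)
  integrable_S := Pool.Agent.S19386.integrable_S
  mean_T := by simp [T, Pool.Agent.S19386.T]
  mean_S := by
    rw [Pool.Agent.S19386.integral_S]
    norm_num
  stable := by
    rw [Pool.Agent.S19386.integral_S]
    have : ∫ ω, T 0 ω ∂P = 2 := by simp [T, Pool.Agent.S19386.T]
    rw [this]
    norm_num

theorem indep_half : iIndepFun (fun i : ℕ ⊕ ℕ => Sum.elim T (fun n ω => S n ω / 2) i) P := by
  have h := Pool.Agent.S19386.indep_TS.comp
    (fun (i : ℕ ⊕ ℕ) (x : ℝ) => Sum.elim (fun _ => x) (fun _ => x / 2) i)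
    (fun i => by
      rcases i with i | i
      · exact measurable_id
      · exact measurable_id.div_const 2)
  have h2 : (fun i : ℕ ⊕ ℕ => Sum.elim T (fun n ω => S n ω / 2) i) =
      (fun i => (fun (x : ℝ) => Sum.elim (fun _ => x) (fun _ => x / 2) i) ∘
        (Sum.elim Pool.Agent.S19386.T Pool.Agent.S19386.S i)) := by
    funext i ω
    rcases i with i | i <;> simp [T, S]
  rw [h2]
  exact h

theorem queue_one : IsQueue 1 P T (fun n ω => S n ω / 2) where
  prob := inferInstance
  measurable_T := fun _ => measurable_const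
  measurable_S := fun n => (Pool.Agent.S19386.measurable_S n).div_const 2
  indep := indep_half
  ident_T := fun n => IdentDistrib.refl measurable_const.aemeasurable
  ident_S := fun n => (Pool.Agent.S19386.S_ident n).comp (u := fun x : ℝ => x / 2)
    (measurable_id.div_const 2)
  nonneg_T := fun _ _ => by simp [T, Pool.Agent.S19386.T]
  nonneg_S := fun n ω => div_nonneg (queue_two.nonneg_S n ω) (by norm_num)
  integrable_T := integrable_const (2:ℝ)
  integrable_S := Pool.Agent.S19386.integrable_S.div_const 2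
  mean_T := by simp [T, Pool.Agent.S19386.T]
  mean_S := by
    have h : ∫ ω, S 0 ω / 2 ∂P = 302/100/2 := by
      rw [integral_div, Pool.Agent.S19386.integral_S]
    show 0 < ∫ ω, S 0 ω / 2 ∂P
    rw [h]
    norm_num
  stable := by
    have h : ∫ ω, S 0 ω / 2 ∂P = 302/100/2 := by
      rw [integral_div, Pool.Agent.S19386.integral_S]
    have : ∫ ω, T 0 ω ∂P = 2 := by simp [T, Pool.Agent.S19386.T]
    show (∫ ω, S 0 ω / 2 ∂P) / (((1:ℕ) : ℝ) * ∫ ω, T 0 ω ∂P) < 1
    rw [h, this]
    norm_num

/-- The limit law is unique. -/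
theorem law_unique {Ω : Type} [MeasurableSpace Ω] {k : ℕ} [NeZero k] {μ : Measure Ω}
    {T S : ℕ → Ω → ℝ} {π π' : Measure (Fin k → ℝ)} (h : IsStationaryLaw k μ T S π)
    (h' : IsStationaryLaw k μ T S π') : π = π' := by
  haveI := h.prob
  haveI := h'.prob
  exact ext_of_forall_integral_eq_of_IsFiniteMeasure
    (fun f => tendsto_nhds_unique (h.tendsto f) (h'.tendsto f))

theorem law_S (n : ℕ) : P {ω | S n ω = 5} = ENNReal.ofReal (1/100) := by
  have h : {ω : Om | S n ω = 5} = (fun ω : Om => ω (Sum.inr n)) ⁻¹' {true} := by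
    ext ω
    simp only [Set.mem_setOf_eq, Set.mem_preimage, Set.mem_singleton_iff, S,
      Pool.Agent.S19386.S]
    constructor
    · intro hh
      by_contra hc
      rw [if_neg hc] at hh
      norm_num at hh
    · intro hh
      rw [if_pos hh]
  rw [h, ← Measure.map_apply (Pool.Agent.S19386.measurable_coord _) (measurableSet_singleton _),
    Pool.Agent.S19386.map_coord]
  simp [coin]

end Proof

/-- **A two-server queue whose stationary mean wait exceeds that of the fast single server.**
There are a GI/GI/2 queue (interarrival time `2`, service time `5` with probability `1/100` and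
`3` otherwise) and the single-server queue with the same interarrival times and halved service
times, both stable, whose workload vectors converge in distribution, to the unique limit laws
`π₂` and `π₁`, such that the stationary mean wait of the single-server queue is at most `1/128`
and that of the two-server queue is finite and at least `1/100`. -/
theorem result :
    ∃ (Ω : Type) (_ : MeasurableSpace Ω) (μ : Measure Ω) (T S : ℕ → Ω → ℝ),
      IsQueue 2 μ T S ∧ IsQueue 1 μ T (fun n ω => S n ω / 2) ∧
      (∀ n ω, T n ω = 2) ∧ (∀ n ω, S n ω = 3 ∨ S n ω = 5) ∧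
      (∀ n, μ {ω | S n ω = 5} = ENNReal.ofReal (1/100)) ∧
      ∃ (π₂ : Measure (Fin 2 → ℝ)) (π₁ : Measure (Fin 1 → ℝ)),
        (∀ π, IsStationaryLaw 2 μ T S π ↔ π = π₂) ∧
        (∀ π, IsStationaryLaw 1 μ T (fun n ω => S n ω / 2) π ↔ π = π₁) ∧
        meanWait π₁ ≤ ENNReal.ofReal (1/128) ∧ ENNReal.ofReal (1/100) ≤ meanWait π₂ ∧
        meanWait π₂ < ⊤ ∧ meanWait π₁ < meanWait π₂ := by
  have hC2 : 2 * ENNReal.ofReal (1/128) + 5 < (⊤ : ENNReal) := by
    refine ENNReal.add_lt_top.mpr ⟨ENNReal.mul_lt_top (by norm_num) ENNReal.ofReal_lt_top, ?_⟩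
    norm_num
  obtain ⟨π₂, hp2, ht2, hw2⟩ := Pool.Agent.H76.QW.loynes G2 G2_mono (fun b => G2_nonneg b 0)
    G2_measurable _ hC2 F2_lintegral
  obtain ⟨π₁, hp1, ht1, hw1⟩ := Pool.Agent.H76.QW.loynes G1 G1_mono (fun b => G1_nonneg b 0)
    G1_measurable (ENNReal.ofReal (1/128)) ENNReal.ofReal_lt_top (fun n i => by
      simp only [F1_eq]
      exact Pool.Agent.S19386.lintegral_U_le n)
  have h1 : meanWait π₁ ≤ ENNReal.ofReal (1/128) := by
    unfold meanWait
    rw [hw1]
    refine iSup_le (fun n => ?_)
    simp only [F1_eq]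
    exact Pool.Agent.S19386.lintegral_U_le n
  have h2 : ENNReal.ofReal (1/100) ≤ meanWait π₂ := by
    unfold meanWait
    rw [hw2]
    exact le_trans F2_ge (le_iSup (fun n =>
      ∫⁻ ω, ENNReal.ofReal (Pool.Agent.H76.QW.F G2 n ω 0) ∂Pool.Agent.S19386.P) 2)
  have h3 : meanWait π₂ < ⊤ := by
    unfold meanWait
    rw [hw2]
    exact lt_of_le_of_lt (iSup_le (fun n => F2_lintegral n 0)) hC2
  have hs2 : IsStationaryLaw 2 Pool.Agent.S19386.P T S π₂ := by
    refine ⟨hp2, ?_, ?_⟩
    · intro n
      have h : workload 2 T S n = Pool.Agent.H76.QW.F G2 n := funext (workload_two n)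
      rw [h]
      exact Pool.Agent.H76.QW.measurable_F G2 G2_measurable n
    · intro f
      simp only [workload_two]
      exact ht2 f
  have hs1 : IsStationaryLaw 1 Pool.Agent.S19386.P T (fun n ω => S n ω / 2) π₁ := by
    refine ⟨hp1, ?_, ?_⟩
    · intro n
      have h : workload 1 T (fun n ω => S n ω / 2) n = Pool.Agent.H76.QW.F G1 n :=
        funext (workload_one n)
      rw [h]
      exact Pool.Agent.H76.QW.measurable_F G1 G1_measurable n
    · intro f
      simp only [workload_one]
      exact ht1 f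
  refine ⟨Pool.Agent.S19386.Om, inferInstance, Pool.Agent.S19386.P, T, S, queue_two, queue_one,
    fun _ _ => rfl, ?_, law_S, π₂, π₁, ?_, ?_, h1, h2, h3, ?_⟩
  · intro n ω
    show Pool.Agent.S19386.S n ω = 3 ∨ Pool.Agent.S19386.S n ω = 5
    unfold Pool.Agent.S19386.S
    split_ifs
    · exact Or.inr rfl
    · exact Or.inl rfl
  · exact fun π => ⟨fun h => law_unique h hs2, fun h => h ▸ hs2⟩
  · exact fun π => ⟨fun h => law_unique h hs1, fun h => h ▸ hs1⟩
  · refine lt_of_le_of_lt h1 (lt_of_lt_of_le ?_ h2)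
    rw [ENNReal.ofReal_lt_ofReal_iff (by norm_num)]
    norm_num

end Pool.Agent.Results.MP_68c8f2_pr.StationaryWaits
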